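import Mathlib

/-!
# Monotone classes of bounded asymptotic dimension: basics

Local density lemma, pigeonhole, transfer of weak-diameter colourings.
-/

set_option autoImplicit false

namespace Pool.Agent.AsdimExp

open Finset
open scoped Classical

/-- `Col n D r G`: `G` has a colouring with `n+1` colours whose monochromatic `r`-components have
weak diameter at most `D`. -/
def Col {V : Type*} (n D r : ℕ) (G : SimpleGraph V) : Prop :=
  ∃ c : V → Fin (n + 1), ∀ u v : V,
    Relation.ReflTransGen (fun a b => c a = c b ∧ G.edist a b ≤ (r : ℕ∞)) u v →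
      G.edist u v ≤ (D : ℕ∞)

/-- ordered adjacent pairs inside `A` -/
noncomputable def darts {V : Type*} (G : SimpleGraph V) (A : Finset V) : Finset (V × V) :=
  (A ×ˢ A).filter (fun p => G.Adj p.1 p.2)

theorem mem_darts {V : Type*} (G : SimpleGraph V) (A : Finset V) (p : V × V) :
    p ∈ darts G A ↔ p.1 ∈ A ∧ p.2 ∈ A ∧ G.Adj p.1 p.2 := by
  simp [darts, and_assoc]

/-- the graph `G` restricted to the edges inside `A` -/
def restr {V : Type*} (G : SimpleGraph V) (A : Finset V) : SimpleGraph V where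
  Adj u v := G.Adj u v ∧ u ∈ A ∧ v ∈ A
  symm := ⟨fun _ _ h => ⟨h.1.symm, h.2.2, h.2.1⟩⟩
  loopless := ⟨fun u h => G.loopless.irrefl u h.1⟩

theorem restr_le {V : Type*} (G : SimpleGraph V) (A : Finset V) : restr G A ≤ G :=
  fun _ _ h => h.1

theorem darts_restr {V : Type*} (G : SimpleGraph V) (A : Finset V) :
    darts (restr G A) A = darts G A := by
  ext p
  simp only [mem_darts, restr]
  tauto

theorem darts_restr_sub {V : Type*} (G : SimpleGraph V) (A B : Finset V) :
    (darts (restr G A) B).card ≤ (darts G B).card := by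
  apply Finset.card_le_card
  intro p hp
  simp only [mem_darts, restr] at hp ⊢
  tauto

/-- pigeonhole for density -/
theorem pigeon {V Q : Type*} [Fintype Q] (G : SimpleGraph V) (A : Finset V)
    (N : Q → Finset V) (K ρ : ℕ) (hK : 1 ≤ K) (hρ : 1 ≤ ρ) (hA : A.Nonempty)
    (hmult : ∀ v ∈ A, (univ.filter (fun q => v ∈ N q)).card ≤ K)
    (hcov : ∀ u ∈ A, ∀ v ∈ A, G.Adj u v → ∃ q, u ∈ N q ∧ v ∈ N q)
    (h : K * ρ * A.card ≤ (darts G A).card) :
    ∃ q, (N q ∩ A).Nonempty ∧ ρ * (N q ∩ A).card ≤ (darts G (N q ∩ A)).card := by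
  by_contra hcon
  push Not at hcon
  have h1 : ∑ q, (N q ∩ A).card ≤ K * A.card := by
    have : ∀ q, (N q ∩ A).card = ∑ v ∈ A, if v ∈ N q then 1 else 0 := by
      intro q
      rw [Finset.sum_ite, Finset.sum_const_zero, add_zero, Finset.sum_const, smul_eq_mul, mul_one]
      congr 1
      ext v
      simp [and_comm]
    simp_rw [this]
    rw [Finset.sum_comm]
    calc ∑ v ∈ A, ∑ q, (if v ∈ N q then 1 else 0) ≤ ∑ v ∈ A, K := by
          apply Finset.sum_le_sum
          intro v hv
          rw [Finset.sum_ite, Finset.sum_const_zero, add_zero, Finset.sum_const, smul_eq_mul,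
            mul_one]
          exact hmult v hv
      _ = K * A.card := by simp [mul_comm]
  have h2 : (darts G A).card ≤ ∑ q, (darts G (N q ∩ A)).card := by
    have : darts G A ⊆ univ.biUnion (fun q => darts G (N q ∩ A)) := by
      intro p hp
      rw [mem_darts] at hp
      obtain ⟨q, hq1, hq2⟩ := hcov p.1 hp.1 p.2 hp.2.1 hp.2.2
      rw [Finset.mem_biUnion]
      refine ⟨q, Finset.mem_univ _, ?_⟩
      rw [mem_darts]
      simp [hq1, hq2, hp]
    exact (Finset.card_le_card this).trans Finset.card_biUnion_le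
  have hpos : 0 < (darts G A).card := by
    have : 0 < K * ρ * A.card := by
      have := hA.card_pos
      positivity
    omega
  obtain ⟨p, hp⟩ := Finset.card_pos.mp hpos
  rw [mem_darts] at hp
  obtain ⟨q0, hq1, hq2⟩ := hcov p.1 hp.1 p.2 hp.2.1 hp.2.2
  have hlt : ∑ q, (darts G (N q ∩ A)).card < ∑ q, ρ * (N q ∩ A).card := by
    apply Finset.sum_lt_sum
    · intro q _
      by_cases hne : (N q ∩ A).Nonempty
      · exact (hcon q hne).le
      · rw [Finset.not_nonempty_iff_eq_empty] at hne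
        rw [hne]
        simp [darts]
    · exact ⟨q0, Finset.mem_univ _, hcon q0 ⟨p.1, by simp [hq1, hp]⟩⟩
  rw [← Finset.mul_sum] at hlt
  have : ρ * ∑ q, (N q ∩ A).card ≤ ρ * (K * A.card) := Nat.mul_le_mul_left _ h1
  have h3 : ρ * (K * A.card) = K * ρ * A.card := by ring
  omega

/-- the relation of the monochromatic `r`-components -/
def rel {V : Type*} {n : ℕ} (G : SimpleGraph V) (r : ℕ) (c : V → Fin (n + 1)) (a b : V) : Prop :=
  c a = c b ∧ G.edist a b ≤ (r : ℕ∞)

instance rel_symm {V : Type*} {n : ℕ} (G : SimpleGraph V) (r : ℕ) (c : V → Fin (n + 1)) :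
    Std.Symm (rel G r c) where
  symm a b h := ⟨h.1.symm, by rw [SimpleGraph.edist_comm]; exact h.2⟩

/-- the setoid of monochromatic components -/
def setd {V : Type*} {n : ℕ} (G : SimpleGraph V) (r : ℕ) (c : V → Fin (n + 1)) : Setoid V where
  r := Relation.ReflTransGen (rel G r c)
  iseqv := ⟨fun _ => Relation.ReflTransGen.refl,
    fun h => (Relation.ReflTransGen.stdSymm (r := rel G r c)).symm _ _ h,
    fun h1 h2 => h1.trans h2⟩

theorem rtg_color {V : Type*} {n : ℕ} (G : SimpleGraph V) (r : ℕ) (c : V → Fin (n + 1)) {a b : V}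
    (h : Relation.ReflTransGen (rel G r c) a b) : c a = c b := by
  induction h with
  | refl => rfl
  | tail _ h ih => exact ih.trans h.1

/-- Local density: a dense graph with a good scale 2 colouring contains a dense
subgraph of bounded weak diameter. -/
theorem local_density {V : Type*} [Fintype V] (G : SimpleGraph V) (A : Finset V)
    (hA : A.Nonempty) (n D ρ : ℕ) (hρ : 1 ≤ ρ) (hcol : Col n D 2 G)
    (h : (n + 1) * ρ * A.card ≤ (darts G A).card) :
    ∃ S ⊆ A, S.Nonempty ∧ ρ * S.card ≤ (darts G S).card ∧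
      ∀ u ∈ S, ∀ v ∈ S, G.edist u v ≤ ((D + 2 : ℕ) : ℕ∞) := by
  obtain ⟨c, hc⟩ := hcol
  let s := setd G 2 c
  let N : Quotient s → Finset V := fun q =>
    univ.filter (fun v => ∃ u, Quotient.mk s u = q ∧ (u = v ∨ G.Adj u v))
  have hN : ∀ q v, v ∈ N q ↔ ∃ u, Quotient.mk s u = q ∧ (u = v ∨ G.Adj u v) := by
    intro q v
    simp [N]
  have hmult : ∀ v ∈ A, (univ.filter (fun q => v ∈ N q)).card ≤ n + 1 := by
    intro v _
    let col : Quotient s → Fin (n + 1) := Quotient.lift c (fun a b hab => rtg_color G 2 c hab)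
    have hinj : Set.InjOn col ((univ.filter (fun q => v ∈ N q) : Finset (Quotient s)) : Set _) := by
      intro q hq q' hq' hcc
      simp only [Finset.coe_filter, Finset.mem_univ, true_and, Set.mem_ofPred_eq] at hq hq'
      obtain ⟨u, hu1, hu2⟩ := (hN q v).mp hq
      obtain ⟨w, hw1, hw2⟩ := (hN q' v).mp hq'
      rw [← hu1, ← hw1] at hcc ⊢
      apply Quotient.sound
      apply Relation.ReflTransGen.single
      refine ⟨hcc, ?_⟩
      have h2 : G.edist u v ≤ 1 := by
        rw [SimpleGraph.edist_le_one_iff_adj_or_eq]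
        exact hu2.symm
      have h3 : G.edist v w ≤ 1 := by
        rw [SimpleGraph.edist_le_one_iff_adj_or_eq]
        rcases hw2 with h | h
        · exact Or.inr h.symm
        · exact Or.inl h.symm
      calc G.edist u w ≤ G.edist u v + G.edist v w := SimpleGraph.edist_triangle
        _ ≤ 1 + 1 := by gcongr
        _ = ((2 : ℕ) : ℕ∞) := by norm_num
    have := Finset.card_le_card_of_injOn (t := (univ : Finset (Fin (n + 1)))) col
      (fun _ _ => Finset.mem_coe.mpr (Finset.mem_univ _)) hinj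
    simpa using this
  have hcov : ∀ u ∈ A, ∀ v ∈ A, G.Adj u v → ∃ q, u ∈ N q ∧ v ∈ N q := by
    intro u _ v _ huv
    exact ⟨Quotient.mk s u, (hN _ _).mpr ⟨u, rfl, Or.inl rfl⟩, (hN _ _).mpr ⟨u, rfl, Or.inr huv⟩⟩
  obtain ⟨q, hq1, hq2⟩ := pigeon G A N (n + 1) ρ (by omega) hρ hA hmult hcov h
  refine ⟨N q ∩ A, Finset.inter_subset_right, hq1, hq2, ?_⟩
  intro u hu v hv
  obtain ⟨u', hu1, hu2⟩ := (hN q u).mp (Finset.mem_inter.mp hu).1
  obtain ⟨v', hv1, hv2⟩ := (hN q v).mp (Finset.mem_inter.mp hv).1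
  have hrel : Relation.ReflTransGen (rel G 2 c) u' v' := Quotient.exact (hu1.trans hv1.symm)
  have h1 : G.edist u' v' ≤ (D : ℕ∞) := hc u' v' hrel
  have h2 : G.edist u u' ≤ 1 := by
    rw [SimpleGraph.edist_le_one_iff_adj_or_eq]
    rcases hu2 with h | h
    · exact Or.inr h.symm
    · exact Or.inl h.symm
  have h3 : G.edist v' v ≤ 1 := by
    rw [SimpleGraph.edist_le_one_iff_adj_or_eq]
    rcases hv2 with h | h
    · exact Or.inr h
    · exact Or.inl h
  calc G.edist u v ≤ G.edist u u' + G.edist u' v := SimpleGraph.edist_triangle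
    _ ≤ G.edist u u' + (G.edist u' v' + G.edist v' v) := by
        gcongr
        exact SimpleGraph.edist_triangle
    _ ≤ 1 + (D + 1) := by gcongr
    _ = ((D + 2 : ℕ) : ℕ∞) := by push_cast; ring

/-- one-Lipschitz maps -/
theorem edist_lip {V W : Type*} (G : SimpleGraph V) (H : SimpleGraph W) (π : V → W)
    (hπ : ∀ a b, G.Adj a b → π a = π b ∨ H.Adj (π a) (π b)) (a b : V) :
    H.edist (π a) (π b) ≤ G.edist a b := by
  by_cases hr : G.Reachable a b
  · obtain ⟨p, hp⟩ := hr.exists_walk_length_eq_edist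
    rw [← hp]
    clear hp
    induction p with
    | nil => simp
    | @cons u v w h p ih =>
      have h1 : H.edist (π u) (π v) ≤ 1 := by
        rw [SimpleGraph.edist_le_one_iff_adj_or_eq]
        exact (hπ u v h).symm
      have hih := ih ⟨p⟩
      calc H.edist (π u) (π w) ≤ H.edist (π u) (π v) + H.edist (π v) (π w) :=
            SimpleGraph.edist_triangle
        _ ≤ 1 + (p.length : ℕ∞) := by gcongr
        _ = (((SimpleGraph.Walk.cons h p).length : ℕ) : ℕ∞) := by
            rw [SimpleGraph.Walk.length_cons]; push_cast; ring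
  · rw [SimpleGraph.edist_eq_top_of_not_reachable hr]
    exact le_top

/-- `K`-Lipschitz maps -/
theorem edist_scale {V W : Type*} (G : SimpleGraph V) (H : SimpleGraph W) (ι : W → V) (K : ℕ)
    (hι : ∀ u v, H.Adj u v → G.edist (ι u) (ι v) ≤ (K : ℕ∞)) (a b : W) (t : ℕ)
    (h : H.edist a b ≤ (t : ℕ∞)) :
    G.edist (ι a) (ι b) ≤ ((K * t : ℕ) : ℕ∞) := by
  have hr : H.edist a b ≠ ⊤ := by
    intro hh
    rw [hh] at h
    exact absurd h (by simp)
  obtain ⟨p, hp⟩ := SimpleGraph.exists_walk_of_edist_ne_top hr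
  rw [← hp] at h
  have hlen : p.length ≤ t := by exact_mod_cast h
  have key : ∀ (u v : W) (p : H.Walk u v), G.edist (ι u) (ι v) ≤ ((K * p.length : ℕ) : ℕ∞) := by
    intro u v p
    induction p with
    | nil => simp
    | @cons u v w h p ih =>
      calc G.edist (ι u) (ι w) ≤ G.edist (ι u) (ι v) + G.edist (ι v) (ι w) :=
            SimpleGraph.edist_triangle
        _ ≤ (K : ℕ∞) + ((K * p.length : ℕ) : ℕ∞) := by
            gcongr
            exact hι u v h
        _ = ((K * (SimpleGraph.Walk.cons h p).length : ℕ) : ℕ∞) := by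
            rw [SimpleGraph.Walk.length_cons]; push_cast; ring
  refine (key a b p).trans ?_
  exact_mod_cast Nat.mul_le_mul_left K hlen

/-- transfer of colourings along a quasi-isometric pair -/
theorem col_transfer {V W : Type*} (G : SimpleGraph V) (H : SimpleGraph W)
    (ι : W → V) (π : V → W) (hπι : ∀ w, π (ι w) = w)
    (hπ : ∀ a b, G.Adj a b → π a = π b ∨ H.Adj (π a) (π b)) (K : ℕ)
    (hι : ∀ u v, H.Adj u v → G.edist (ι u) (ι v) ≤ (K : ℕ∞)) (n t D : ℕ)
    (hG : Col n D (K * t) G) : Col n D t H := by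
  obtain ⟨c, hc⟩ := hG
  refine ⟨fun w => c (ι w), ?_⟩
  intro u v huv
  have h1 : Relation.ReflTransGen (fun a b => c a = c b ∧ G.edist a b ≤ ((K * t : ℕ) : ℕ∞))
      (ι u) (ι v) := by
    refine Relation.ReflTransGen.lift (r := fun a b => c (ι a) = c (ι b) ∧
      H.edist a b ≤ (t : ℕ∞)) ι ?_ u v huv
    intro a b hab
    exact ⟨hab.1, edist_scale G H ι K hι a b t hab.2⟩
  have h2 := hc _ _ h1
  have h3 := edist_lip G H π hπ (ι u) (ι v)
  rw [hπι, hπι] at h3
  exact h3.trans h2

end Pool.Agent.AsdimExp
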