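import Pool.Agent.AsdimExp.Step

set_option autoImplicit false

namespace Pool.Agent.AsdimExp

open Finset
open scoped Classical

/-- locally a tree up to radius `R` -/
def LocTree {W : Type*} (R : ℕ) (H : SimpleGraph W) : Prop :=
  ∀ x v w₁ w₂, H.Adj v w₁ → H.Adj v w₂ → H.edist x v ≤ (R : ℕ∞) →
    H.edist x w₁ ≤ H.edist x v → H.edist x w₂ ≤ H.edist x v → w₁ = w₂

/-- a subset of small radius in a locally tree-like graph spans few edges -/
theorem tree_darts {W : Type*} (R : ℕ) (H : SimpleGraph W) (hloc : LocTree R H)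
    (S : Finset W) (x : W) (hx : x ∈ S) (hS : ∀ v ∈ S, H.edist x v ≤ (R : ℕ∞)) :
    (darts H S).card ≤ 2 * (S.card - 1) := by
  have hsub : darts H S ⊆ (darts H S).filter (fun p => H.edist x p.2 ≤ H.edist x p.1) ∪
      (darts H S).filter (fun p => H.edist x p.1 ≤ H.edist x p.2) := by
    intro p hp
    rw [Finset.mem_union, Finset.mem_filter, Finset.mem_filter]
    rcases le_total (H.edist x p.2) (H.edist x p.1) with h | h
    · exact Or.inl ⟨hp, h⟩
    · exact Or.inr ⟨hp, h⟩
  have h1 : ((darts H S).filter (fun p => H.edist x p.2 ≤ H.edist x p.1)).card ≤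
      (S.erase x).card := by
    apply Finset.card_le_card_of_injOn (fun p => p.1)
    · intro p hp
      rw [Finset.mem_coe, Finset.mem_filter, mem_darts] at hp
      rw [Finset.mem_coe, Finset.mem_erase]
      refine ⟨?_, hp.1.1⟩
      intro h
      replace h : p.1 = x := h
      have h2 := hp.2
      rw [h, SimpleGraph.edist_self] at h2
      have h3 : H.edist x p.2 = 0 := le_antisymm h2 bot_le
      rw [SimpleGraph.edist_eq_zero_iff] at h3
      exact hp.1.2.2.ne (h.trans h3)
    · intro p hp q hq hpq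
      rw [Finset.mem_coe, Finset.mem_filter, mem_darts] at hp hq
      have hpq' : p.1 = q.1 := hpq
      have h3 := hp.1.2.2
      have h4 := hp.2
      rw [hpq'] at h3 h4
      have := hloc x q.1 p.2 q.2 h3 hq.1.2.2 (hS _ hq.1.1) h4 hq.2
      exact Prod.ext hpq' this
  have h2 : ((darts H S).filter (fun p => H.edist x p.1 ≤ H.edist x p.2)).card ≤
      (S.erase x).card := by
    apply Finset.card_le_card_of_injOn (fun p => p.2)
    · intro p hp
      rw [Finset.mem_coe, Finset.mem_filter, mem_darts] at hp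
      rw [Finset.mem_coe, Finset.mem_erase]
      refine ⟨?_, hp.1.2.1⟩
      intro h
      replace h : p.2 = x := h
      have h2 := hp.2
      rw [h, SimpleGraph.edist_self] at h2
      have h3 : H.edist x p.1 = 0 := le_antisymm h2 bot_le
      rw [SimpleGraph.edist_eq_zero_iff] at h3
      exact hp.1.2.2.ne (h3.symm.trans h.symm)
    · intro p hp q hq hpq
      rw [Finset.mem_coe, Finset.mem_filter, mem_darts] at hp hq
      have hpq' : p.2 = q.2 := hpq
      have h3 := hp.1.2.2.symm
      have h4 := hp.2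
      rw [hpq'] at h3 h4
      have := hloc x q.2 p.1 q.1 h3 hq.1.2.2.symm (hS _ hq.1.2.1) h4 hq.2
      exact Prod.ext this hpq'
  have h3 := (Finset.card_le_card hsub).trans (Finset.card_union_le _ _)
  rw [Finset.card_erase_of_mem hx] at h1 h2
  omega

/-- reduced words of length at most `r` -/
def Wd (k r : ℕ) : Type := {l : List (Fin k) // l.length ≤ r ∧ l.IsChain (· ≠ ·)}

instance (k r : ℕ) : Finite (Wd k r) := by
  have h : {l : List (Fin k) | l.length ≤ r}.Finite := List.finite_length_le (Fin k) r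
  have := h.to_subtype
  exact Finite.of_injective
    (fun w : Wd k r => (⟨w.1, w.2.1⟩ : {l : List (Fin k) | l.length ≤ r}))
    (fun a b hab => Subtype.ext (by simpa using hab))

noncomputable instance (k r : ℕ) : Fintype (Wd k r) := Fintype.ofFinite _

/-- the action of a letter on lists -/
def actL {k : ℕ} (r : ℕ) (i : Fin k) (l : List (Fin k)) : List (Fin k) :=
  match l with
  | [] => if 1 ≤ r then [i] else []
  | a :: l' => if a = i then l' else if l'.length + 1 < r then i :: a :: l' else a :: l'

theorem actL_nil {k : ℕ} (r : ℕ) (i : Fin k) : actL r i [] = if 1 ≤ r then [i] else [] := rfl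

theorem actL_cons' {k : ℕ} (r : ℕ) (i a : Fin k) (l' : List (Fin k)) : actL r i (a :: l') =
    if a = i then l' else if l'.length + 1 < r then i :: a :: l' else a :: l' := rfl

theorem actL_mem {k : ℕ} (r : ℕ) (i : Fin k) (l : List (Fin k))
    (h : l.length ≤ r ∧ l.IsChain (· ≠ ·)) :
    (actL r i l).length ≤ r ∧ (actL r i l).IsChain (· ≠ ·) := by
  match l, h with
  | [], h =>
    rw [actL_nil]
    split_ifs with h1
    · exact ⟨by simpa using h1, by simp⟩
    · exact ⟨by simp, by simp⟩
  | a :: l', h =>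
    rw [actL_cons']
    split_ifs with h1 h2
    · refine ⟨?_, h.2.tail⟩
      have := h.1
      rw [List.length_cons] at this
      omega
    · refine ⟨?_, ?_⟩
      · simp only [List.length_cons]
        omega
      · rw [List.isChain_cons_cons]
        exact ⟨fun hh => h1 hh.symm, h.2⟩
    · exact h

theorem actL_cons {k : ℕ} (r : ℕ) (i : Fin k) (l : List (Fin k)) (h1 : l.length + 1 ≤ r)
    (h2 : (i :: l).IsChain (· ≠ ·)) : actL r i l = i :: l := by
  match l, h1, h2 with
  | [], h1, h2 =>
    rw [actL_nil, if_pos (by simpa using h1)]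
  | a :: l', h1, h2 =>
    rw [actL_cons']
    rw [List.isChain_cons_cons] at h2
    rw [if_neg (fun hh => h2.1 hh.symm)]
    simp only [List.length_cons] at h1
    rw [if_pos (by omega)]

theorem actL_invol {k : ℕ} (r : ℕ) (i : Fin k) (l : List (Fin k))
    (h : l.length ≤ r ∧ l.IsChain (· ≠ ·)) : actL r i (actL r i l) = l := by
  match l, h with
  | [], h =>
    by_cases h1 : 1 ≤ r
    · simp [actL, h1]
    · simp [actL, h1]
  | a :: l', h =>
    by_cases h1 : a = i
    · subst h1
      have : actL r a (a :: l') = l' := by simp [actL]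
      rw [this]
      exact actL_cons r a l' (by simpa using h.1) h.2
    · by_cases h2 : l'.length + 1 < r
      · have : actL r i (a :: l') = i :: a :: l' := by simp [actL, h1, h2]
        rw [this]
        simp [actL]
      · have : actL r i (a :: l') = a :: l' := by simp [actL, h1, h2]
        rw [this, this]

/-- the action of a letter on reduced words -/
def act {k r : ℕ} (i : Fin k) (w : Wd k r) : Wd k r := ⟨actL r i w.1, actL_mem r i w.1 w.2⟩

theorem act_invol {k r : ℕ} (i : Fin k) : Function.Involutive (act i : Wd k r → Wd k r) :=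
  fun w => Subtype.ext (actL_invol r i w.1 w.2)

/-- the generators -/
def gen {k r : ℕ} (i : Fin k) : Equiv.Perm (Wd k r) := (act_invol i).toPerm

theorem gen_apply {k r : ℕ} (i : Fin k) (w : Wd k r) : (gen i w).1 = actL r i w.1 := rfl

theorem gen_mul_self {k r : ℕ} (i : Fin k) : (gen i : Equiv.Perm (Wd k r)) * gen i = 1 :=
  Equiv.ext (fun w => act_invol i w)

/-- product of a word -/
def wprod {k : ℕ} (r : ℕ) (l : List (Fin k)) : Equiv.Perm (Wd k r) := (l.map gen).prod

theorem wprod_cons {k : ℕ} (r : ℕ) (i : Fin k) (l : List (Fin k)) :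
    wprod r (i :: l) = gen i * wprod r l := by
  simp [wprod]

/-- the empty word -/
def emp (k r : ℕ) : Wd k r := ⟨[], by simp, by simp⟩

theorem wprod_emp {k : ℕ} (r : ℕ) (l : List (Fin k)) (h1 : l.length ≤ r)
    (h2 : l.IsChain (· ≠ ·)) : (wprod r l (emp k r)).1 = l := by
  induction l with
  | nil => rfl
  | cons i l ih =>
    rw [wprod_cons, Equiv.Perm.mul_apply, gen_apply]
    rw [List.length_cons] at h1
    rw [ih (by omega) h2.tail]
    exact actL_cons r i l h1 h2

/-- the Cayley graph -/
def cay (k r : ℕ) (hr : 1 ≤ r) : SimpleGraph (Equiv.Perm (Wd k r)) where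
  Adj σ τ := ∃ i, τ = gen i * σ
  symm := ⟨by
    rintro σ τ ⟨i, rfl⟩
    refine ⟨i, ?_⟩
    rw [← mul_assoc, gen_mul_self, one_mul]⟩
  loopless := ⟨by
    rintro σ ⟨i, hi⟩
    have h1 : (gen i : Equiv.Perm (Wd k r)) = 1 := by
      have := congrArg (fun g => g * σ⁻¹) hi
      simp only [mul_inv_cancel, mul_assoc, mul_one] at this
      exact this.symm
    have h2 : (gen i (emp k r)).1 = [i] := by
      rw [gen_apply]
      exact actL_cons r i [] (by simpa using hr) (by simp)
    rw [h1] at h2
    exact List.cons_ne_nil _ _ h2.symm⟩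

theorem edist_wprod {k r : ℕ} (hr : 1 ≤ r) (x : Equiv.Perm (Wd k r)) (l : List (Fin k)) :
    (cay k r hr).edist x (wprod r l * x) ≤ (l.length : ℕ∞) := by
  induction l with
  | nil => simp [wprod]
  | cons i l ih =>
    have h1 : (cay k r hr).edist (wprod r l * x) (wprod r (i :: l) * x) ≤ 1 := by
      rw [SimpleGraph.edist_le_one_iff_adj_or_eq]
      left
      exact ⟨i, by rw [wprod_cons, mul_assoc]⟩
    calc (cay k r hr).edist x (wprod r (i :: l) * x)
        ≤ (cay k r hr).edist x (wprod r l * x) +
          (cay k r hr).edist (wprod r l * x) (wprod r (i :: l) * x) := SimpleGraph.edist_triangle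
      _ ≤ (l.length : ℕ∞) + 1 := by gcongr
      _ = ((i :: l).length : ℕ∞) := by rw [List.length_cons]; push_cast; rfl

theorem chain_of_far {k r : ℕ} (hr : 1 ≤ r) (x w : Equiv.Perm (Wd k r)) (l : List (Fin k))
    (i : Fin k) (hl : l.IsChain (· ≠ ·)) (hw : w = wprod r l * x)
    (hlen : (l.length : ℕ∞) ≤ (cay k r hr).edist x (gen i * w)) :
    (i :: l).IsChain (· ≠ ·) := by
  match l, hl, hw, hlen with
  | [], _, _, _ => simp
  | j :: l', hl, hw, hlen =>
    rw [List.isChain_cons_cons]
    refine ⟨?_, hl⟩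
    intro hij
    subst hij
    rw [hw, wprod_cons, ← mul_assoc, ← mul_assoc, gen_mul_self, one_mul] at hlen
    have h1 := edist_wprod hr x l'
    have h2 := hlen.trans h1
    rw [List.length_cons] at h2
    have : l'.length + 1 ≤ l'.length := by exact_mod_cast h2
    omega

theorem word_of_dist {k r : ℕ} (hr : 1 ≤ r) (x : Equiv.Perm (Wd k r)) : ∀ (a : ℕ) (v),
    (cay k r hr).edist x v = (a : ℕ∞) →
      ∃ l : List (Fin k), l.length = a ∧ l.IsChain (· ≠ ·) ∧ v = wprod r l * x := by
  intro a
  induction a with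
  | zero =>
    intro v hv
    have : (cay k r hr).edist x v = 0 := by simpa using hv
    rw [SimpleGraph.edist_eq_zero_iff] at this
    exact ⟨[], rfl, by simp, by simp [wprod, this]⟩
  | succ a ih =>
    intro v hv
    obtain ⟨w, hwv, hw⟩ := exists_pred (cay k r hr) x v a hv
    have h1 : (cay k r hr).edist x v ≤ (cay k r hr).edist x w + 1 := by
      refine (SimpleGraph.edist_triangle (v := w)).trans ?_
      gcongr
      rw [SimpleGraph.edist_le_one_iff_adj_or_eq]
      exact Or.inl hwv
    have hweq : (cay k r hr).edist x w = (a : ℕ∞) := by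
      apply le_antisymm hw
      rw [hv] at h1
      push_cast at h1
      exact (ENat.add_le_add_iff_right (by simp)).mp h1
    obtain ⟨l, hl1, hl2, hl3⟩ := ih w hweq
    obtain ⟨i, hi⟩ := hwv
    refine ⟨i :: l, by simp [hl1], ?_, ?_⟩
    · apply chain_of_far hr x w l i hl2 hl3
      rw [← hi, hv, hl1]
      exact_mod_cast Nat.le_succ a
    · rw [hi, hl3, wprod_cons, mul_assoc]

theorem cay_locTree (k R : ℕ) : LocTree R (cay k (R + 1) (by omega)) := by
  intro x v w₁ w₂ h1 h2 hv hw1 hw2
  have hfin : ∀ w, (cay k (R + 1) (by omega)).edist x w ≤ (R : ℕ∞) → ∃ a : ℕ,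
      (cay k (R + 1) (by omega)).edist x w = (a : ℕ∞) ∧ a ≤ R := by
    intro w hw
    obtain ⟨i, hi⟩ := ENat.ne_top_iff_exists.mp (ne_top_of_le_ne_top (ENat.natCast_ne_top _) hw)
    refine ⟨i, hi.symm, ?_⟩
    rw [← hi] at hw
    exact_mod_cast hw
  have key : ∀ w, (cay k (R + 1) (by omega)).Adj v w →
      (cay k (R + 1) (by omega)).edist x w ≤ (cay k (R + 1) (by omega)).edist x v →
      ∃ (i : Fin k) (l : List (Fin k)), v = gen i * w ∧ ((v * x⁻¹) (emp k (R + 1))).1 = i :: l := by
    intro w hvw hw
    obtain ⟨a, ha1, ha2⟩ := hfin w (hw.trans hv)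
    obtain ⟨l, hl1, hl2, hl3⟩ := word_of_dist _ x a w ha1
    obtain ⟨i, hi⟩ := hvw.symm
    refine ⟨i, l, hi, ?_⟩
    have hch : (i :: l).IsChain (· ≠ ·) := by
      apply chain_of_far _ x w l i hl2 hl3
      rw [← hi, hl1, ← ha1]
      exact hw
    have : v * x⁻¹ = wprod (R + 1) (i :: l) := by
      rw [hi, hl3, wprod_cons]
      group
    rw [this]
    apply wprod_emp _ _ _ hch
    rw [List.length_cons]
    omega
  obtain ⟨i, l, hi, hil⟩ := key w₁ h1 hw1
  obtain ⟨j, l', hj, hjl⟩ := key w₂ h2 hw2
  rw [hil] at hjl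
  have hij : i = j := (List.cons.inj hjl).1
  rw [← hij] at hj
  have := hi.symm.trans hj
  exact mul_left_cancel this

theorem cay_darts (k r : ℕ) (hr : 1 ≤ r) :
    k * Fintype.card (Equiv.Perm (Wd k r)) ≤ (darts (cay k r hr) univ).card := by
  have h1 : Fintype.card (Fin k × Equiv.Perm (Wd k r)) =
      k * Fintype.card (Equiv.Perm (Wd k r)) := by
    rw [Fintype.card_prod, Fintype.card_fin]
  rw [← h1, ← Finset.card_univ]
  apply Finset.card_le_card_of_injOn (fun p => (p.2, gen p.1 * p.2))
  · intro p _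
    rw [Finset.mem_coe, mem_darts]
    exact ⟨Finset.mem_univ _, Finset.mem_univ _, ⟨p.1, rfl⟩⟩
  · intro p _ q _ hpq
    simp only [Prod.mk.injEq] at hpq
    obtain ⟨h1, h2⟩ := hpq
    rw [h1] at h2
    have h3 := mul_right_cancel h2
    have h4 : (gen p.1 (emp k r)).1 = [p.1] := by
      rw [gen_apply]
      exact actL_cons r p.1 [] (by simpa using hr) (by simp)
    have h5 : (gen q.1 (emp k r)).1 = [q.1] := by
      rw [gen_apply]
      exact actL_cons r q.1 [] (by simpa using hr) (by simp)
    rw [h3, h5] at h4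
    exact Prod.ext (by simpa using h4.symm) h1

/-- There are finite graphs of large degree that are locally trees. -/
theorem exists_locTree (k R : ℕ) : ∃ (W : Type) (_ : Fintype W) (_ : Nonempty W)
    (H : SimpleGraph W), LocTree R H ∧ k * Fintype.card W ≤ (darts H univ).card :=
  ⟨Equiv.Perm (Wd k (R + 1)), inferInstance, inferInstance, cay k (R + 1) (by omega),
    cay_locTree k R, cay_darts k (R + 1) (by omega)⟩

end Pool.Agent.AsdimExp
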