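import Pool.Agent.AsdimExp.Girth

set_option autoImplicit false

namespace Pool.Agent.AsdimExp

open Finset
open scoped Classical

theorem restr_mono {V : Type*} (G G' : SimpleGraph V) (h : G ≤ G') (A : Finset V) :
    restr G A ≤ restr G' A := fun _ _ hh => ⟨h hh.1, hh.2⟩

/-- iterating the step -/
theorem iterate {V : Type*} [Fintype V] (n D ρ : ℕ) (hρ : 2 ≤ ρ) (side : V → Bool) :
    ∀ (k : ℕ) (G : SimpleGraph V) (A : Finset V), A.Nonempty →
      (∀ u v, G.Adj u v → side u ≠ side v) → (∀ u v, G.Adj u v → u ∈ A ∧ v ∈ A) →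
      (∀ G' ≤ G, Col n D 2 G') → (2 * (n + 1)) ^ k * ρ * A.card ≤ (darts G A).card →
      ∃ (x : Fin k → V) (T : Fin k → Finset V) (s : Fin k → Bool) (A' : Finset V),
        (∀ j, T j ⊆ A) ∧ A' ⊆ A ∧ A'.Nonempty ∧ (∀ j, Disjoint (T j) A') ∧
        (∀ i j, i ≠ j → Disjoint (T i) (T j)) ∧ (∀ j, x j ∈ T j) ∧
        (∀ j, ∀ v ∈ T j, (restr G (T j)).edist (x j) v ≤ ((D + 2 : ℕ) : ℕ∞)) ∧
        (∀ j, ∀ v ∈ A', side v = s j → ∃ t ∈ T j, G.Adj v t) ∧
        ρ * A'.card ≤ (darts G A').card := by
  intro k
  induction k with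
  | zero =>
    intro G A hA _ _ _ h
    refine ⟨Fin.elim0, Fin.elim0, Fin.elim0, A, fun j => j.elim0, subset_rfl, hA,
      fun j => j.elim0, fun j => j.elim0, fun j => j.elim0, fun j => j.elim0,
      fun j => j.elim0, ?_⟩
    simpa using h
  | succ k ih =>
    intro G A hA hbip hGA hcol h
    have hpos : 1 ≤ (2 * (n + 1)) ^ k := Nat.one_le_pow _ _ (by omega)
    have h2 : 2 ≤ (2 * (n + 1)) ^ k * ρ := le_trans hρ (Nat.le_mul_of_pos_left _ hpos)
    obtain ⟨x0, T0, A1, s0, hx0, hT0, hA1, hdisj, hA1ne, hA1d, hrad, hatt⟩ :=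
      step G side hbip A hA hGA n D ((2 * (n + 1)) ^ k * ρ) h2 (hcol G le_rfl) (by
        refine le_trans (le_of_eq ?_) h
        rw [pow_succ]
        ring)
    have hle : restr G A1 ≤ G := restr_le G A1
    obtain ⟨x, T, s, A', hT, hA', hne, hd1, hd2, hxT, hr, ha, hd⟩ := ih (restr G A1) A1 hA1ne
      (fun u v huv => hbip u v (hle huv)) (fun u v huv => huv.2)
      (fun G' hG' => hcol G' (hG'.trans hle)) (by rw [darts_restr]; exact hA1d)
    refine ⟨Fin.cons x0 x, Fin.cons T0 T, Fin.cons s0 s, A', ?_, hA'.trans hA1, hne, ?_, ?_, ?_,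
      ?_, ?_, hd.trans (darts_restr_sub G A1 A')⟩
    · intro j
      refine Fin.cases ?_ ?_ j
      · simpa using hT0
      · intro j
        simpa using (hT j).trans hA1
    · intro j
      refine Fin.cases ?_ ?_ j
      · simpa using Finset.disjoint_of_subset_right hA' hdisj
      · intro j
        simpa using hd1 j
    · intro i j
      refine Fin.cases ?_ ?_ i
      · refine Fin.cases ?_ ?_ j
        · intro hh
          exact absurd rfl hh
        · intro j _
          simpa using Finset.disjoint_of_subset_right (hT j) hdisj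
      · intro i
        refine Fin.cases ?_ ?_ j
        · intro _
          simpa using (Finset.disjoint_of_subset_right (hT i) hdisj).symm
        · intro j hij
          simpa using hd2 i j (fun hh => hij (by rw [hh]))
    · intro j
      refine Fin.cases ?_ ?_ j
      · simpa using hx0
      · intro j
        simpa using hxT j
    · intro j
      refine Fin.cases ?_ ?_ j
      · simpa using hrad
      · intro j v hv
        simp only [Fin.cons_succ] at hv ⊢
        exact (SimpleGraph.edist_anti (restr_mono _ _ hle (T j))).trans (hr j v hv)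
    · intro j
      refine Fin.cases ?_ ?_ j
      · intro v hv hvs
        simp only [Fin.cons_zero] at hvs ⊢
        exact hatt v (hA' hv) hvs
      · intro j v hv hvs
        simp only [Fin.cons_succ] at hvs ⊢
        obtain ⟨t, ht1, ht2⟩ := ha j v hv hvs
        exact ⟨t, ht1, ht2.1⟩

/-- half of the edges form a bipartite graph -/
theorem exists_bip {V : Type*} [Fintype V] (G : SimpleGraph V) : ∃ side : V → Bool,
    (darts G univ).card ≤ 2 * ((darts G univ).filter (fun p => side p.1 ≠ side p.2)).card := by
  by_contra hcon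
  push Not at hcon
  have hflip : ∀ a b : V, a ≠ b →
      2 * ((univ : Finset (V → Bool)).filter (fun side => side a ≠ side b)).card =
        Fintype.card (V → Bool) := by
    intro a b hab
    have h1 : ((univ : Finset (V → Bool)).filter (fun side => side a ≠ side b)).card =
        ((univ : Finset (V → Bool)).filter (fun side => ¬ (side a ≠ side b))).card := by
      apply Finset.card_nbij' (fun side => Function.update side a (!side a))
        (fun side => Function.update side a (!side a))
      · intro side hs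
        simp only [Finset.coe_filter, Finset.mem_univ, true_and, Set.mem_ofPred_eq] at hs ⊢
        rw [Function.update_self, Function.update_of_ne hab.symm]
        revert hs
        cases side a <;> cases side b <;> simp
      · intro side hs
        simp only [Finset.coe_filter, Finset.mem_univ, true_and, Set.mem_ofPred_eq] at hs ⊢
        rw [Function.update_self, Function.update_of_ne hab.symm]
        revert hs
        cases side a <;> cases side b <;> simp
      · intro side _
        simp
      · intro side _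
        simp
    have h2 := Finset.card_filter_add_card_filter_not (s := (univ : Finset (V → Bool)))
      (fun side => side a ≠ side b)
    rw [Finset.card_univ] at h2
    omega
  have hsum : ∑ side : V → Bool,
      2 * ((darts G univ).filter (fun p => side p.1 ≠ side p.2)).card =
      (darts G univ).card * Fintype.card (V → Bool) := by
    have h1 : ∀ side : V → Bool, ((darts G univ).filter (fun p => side p.1 ≠ side p.2)).card =
        ∑ p ∈ darts G univ, if side p.1 ≠ side p.2 then 1 else 0 := by
      intro side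
      rw [Finset.card_filter]
    simp_rw [h1]
    rw [← Finset.mul_sum, Finset.sum_comm, Finset.mul_sum]
    have h2 : ∀ p ∈ darts G univ, 2 * ∑ side : V → Bool,
        (if side p.1 ≠ side p.2 then 1 else 0) = Fintype.card (V → Bool) := by
      intro p hp
      rw [← Finset.card_filter]
      exact hflip p.1 p.2 ((mem_darts G _ p).mp hp).2.2.ne
    rw [Finset.sum_congr rfl h2, Finset.sum_const, smul_eq_mul]
  have hlt : ∑ side : V → Bool,
      2 * ((darts G univ).filter (fun p => side p.1 ≠ side p.2)).card <
      ∑ _side : V → Bool, (darts G univ).card := by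
    apply Finset.sum_lt_sum_of_nonempty Finset.univ_nonempty
    intro side _
    exact hcon side
  rw [hsum, Finset.sum_const, smul_eq_mul, Finset.card_univ, mul_comm] at hlt
  exact lt_irrefl _ hlt

/-- **Density theorem**: a class closed under spanning subgraphs with bounded asymptotic
dimension has bounded density. -/
theorem density_bound (C : ∀ n : ℕ, SimpleGraph (Fin n) → Prop)
    (hclosed : ∀ (m : ℕ) (G H : SimpleGraph (Fin m)), H ≤ G → C m G → C m H)
    (n : ℕ) (D : ℕ → ℕ) (hcol : ∀ m G, C m G → ∀ r, Col n (D r) r G) :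
    ∃ K : ℕ, ∀ m G, C m G → (darts G univ).card ≤ K * m := by
  let D0 := D 2 + 2
  let K0 := 2 * D0 + 2
  let R := D (K0 * 2) + 2
  obtain ⟨W, instW, instN, H, hloc, hdens⟩ := exists_locTree (2 * (n + 1)) R
  let M := Fintype.card W
  let ρ := 2 * M ^ 2 + 2
  refine ⟨2 * ((2 * (n + 1)) ^ (2 * M) * ρ), ?_⟩
  intro m G hG
  by_contra hcon
  rw [not_le] at hcon
  obtain ⟨side, hside⟩ := exists_bip G
  let Gb : SimpleGraph (Fin m) :=
    { Adj := fun u v => G.Adj u v ∧ side u ≠ side v
      symm := ⟨fun _ _ h => ⟨h.1.symm, h.2.symm⟩⟩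
      loopless := ⟨fun u h => h.2 rfl⟩ }
  have hGb : Gb ≤ G := fun _ _ h => h.1
  have hdGb : (darts G univ).filter (fun p => side p.1 ≠ side p.2) = darts Gb univ := by
    ext p
    rw [Finset.mem_filter, mem_darts, mem_darts]
    simp only [Gb, Finset.mem_univ, true_and]
  rw [hdGb] at hside
  have hdense : (2 * (n + 1)) ^ (2 * M) * ρ * (univ : Finset (Fin m)).card ≤
      (darts Gb univ).card := by
    rw [Finset.card_univ, Fintype.card_fin]
    have h1 : 2 * ((2 * (n + 1)) ^ (2 * M) * ρ) * m =
      2 * ((2 * (n + 1)) ^ (2 * M) * ρ * m) := by ring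
    rw [h1] at hcon
    omega
  have hmpos : 0 < m := by
    rcases Nat.eq_zero_or_pos m with h0 | h0
    · exfalso
      subst h0
      have : (darts G univ).card = 0 := by
        rw [Finset.card_eq_zero, Finset.eq_empty_iff_forall_notMem]
        intro p
        exact p.1.elim0
      omega
    · exact h0
  have : Nonempty (Fin m) := ⟨⟨0, hmpos⟩⟩
  obtain ⟨x, T, s, A', -, -, hne, hd1, hd2, hxT, hr, ha, hd⟩ := iterate n (D 2) ρ (by omega) side
    (2 * M) Gb univ Finset.univ_nonempty (fun u v h => h.2) (fun u v _ => ⟨mem_univ _, mem_univ _⟩)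
    (fun G' hG' => hcol m G' (hclosed m G G' (hG'.trans hGb) hG) 2) hdense
  -- a popular side
  obtain ⟨s0, hs0⟩ : ∃ s0 : Bool, M ≤ (univ.filter (fun j : Fin (2 * M) => s j = s0)).card := by
    by_contra hno
    push Not at hno
    have h1 := hno true
    have h2 := hno false
    have h3 := Finset.card_filter_add_card_filter_not (s := (univ : Finset (Fin (2 * M))))
      (fun j => s j = true)
    rw [Finset.card_univ, Fintype.card_fin] at h3
    have h4 : (univ.filter (fun j : Fin (2 * M) => ¬ (s j = true))) =
        (univ.filter (fun j : Fin (2 * M) => s j = false)) := by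
      ext j
      simp
    rw [h4] at h3
    omega
  obtain ⟨J, hJ⟩ : ∃ J : W ↪ Fin (2 * M), ∀ w, s (J w) = s0 := by
    have h1 : Fintype.card W ≤ Fintype.card
        ↥(univ.filter (fun j : Fin (2 * M) => s j = s0)) := by
      rw [Fintype.card_coe]
      exact hs0
    obtain ⟨e⟩ := Function.Embedding.nonempty_of_card_le h1
    refine ⟨e.trans (Function.Embedding.subtype _), ?_⟩
    intro w
    have := (e w).2
    rw [Finset.mem_filter] at this
    exact this.2
  -- many attachment vertices
  have hZ : M ^ 2 ≤ (A'.filter (fun v => side v = s0)).card := by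
    have h1 : (darts Gb A').card ≤ 2 * ((A'.filter (fun v => side v = s0)).card * A'.card) := by
      have hsub : darts Gb A' ⊆ ((A'.filter (fun v => side v = s0)) ×ˢ A') ∪
          (A' ×ˢ (A'.filter (fun v => side v = s0))) := by
        intro p hp
        rw [mem_darts] at hp
        obtain ⟨hp1, hp2, hp3⟩ := hp
        have hne' : side p.1 ≠ side p.2 := hp3.2
        rw [Finset.mem_union, Finset.mem_product, Finset.mem_product, Finset.mem_filter,
          Finset.mem_filter]
        by_cases h : side p.1 = s0
        · exact Or.inl ⟨⟨hp1, h⟩, hp2⟩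
        · right
          refine ⟨hp1, hp2, ?_⟩
          revert h hne'
          cases side p.1 <;> cases side p.2 <;> cases s0 <;> simp
      refine (Finset.card_le_card hsub).trans ((Finset.card_union_le _ _).trans ?_)
      rw [Finset.card_product, Finset.card_product]
      apply le_of_eq
      ring
    have h2 := hd.trans h1
    have h3 := hne.card_pos
    have h4 : ρ * A'.card ≤ (2 * (A'.filter (fun v => side v = s0)).card) * A'.card := by
      refine h2.trans (le_of_eq ?_)
      ring
    have h5 := Nat.le_of_mul_le_mul_right h4 h3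
    have h6 : ρ = 2 * M ^ 2 + 2 := rfl
    omega
  obtain ⟨z, hzinj, hz⟩ : ∃ z : W × W → Fin m, Function.Injective z ∧
      ∀ p, z p ∈ A' ∧ side (z p) = s0 := by
    have h1 : Fintype.card (W × W) ≤ Fintype.card ↥(A'.filter (fun v => side v = s0)) := by
      rw [Fintype.card_coe, Fintype.card_prod]
      refine le_trans (le_of_eq ?_) hZ
      simp only [M]
      ring
    obtain ⟨e⟩ := Function.Embedding.nonempty_of_card_le h1
    refine ⟨fun p => (e p).1, ?_, ?_⟩
    · intro a b hab
      exact e.injective (Subtype.ext hab)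
    · intro p
      have := (e p).2
      rw [Finset.mem_filter] at this
      exact this
  -- the subgraph modelling `H`
  let GH : SimpleGraph (Fin m) :=
    { Adj := fun a b => Gb.Adj a b ∧ ((∃ w, a ∈ T (J w) ∧ b ∈ T (J w)) ∨
        (∃ u v, H.Adj u v ∧ ((a = z (u, v) ∧ (b ∈ T (J u) ∨ b ∈ T (J v))) ∨
          (b = z (u, v) ∧ (a ∈ T (J u) ∨ a ∈ T (J v))))))
      symm := ⟨by
        rintro a b ⟨h1, h2⟩
        refine ⟨h1.symm, ?_⟩
        rcases h2 with ⟨w, hw⟩ | ⟨u, v, huv, hh⟩
        · exact Or.inl ⟨w, hw.2, hw.1⟩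
        · exact Or.inr ⟨u, v, huv, hh.symm⟩⟩
      loopless := ⟨fun a h => Gb.loopless.irrefl a h.1⟩ }
  have hGH : GH ≤ Gb := fun _ _ h => h.1
  have hGHC : C m GH := hclosed m G GH (hGH.trans hGb) hG
  let π : Fin m → W := fun a =>
    if h : ∃ w, a ∈ T (J w) then h.choose else
      if h : ∃ p, z p = a then h.choose.1 else Classical.arbitrary W
  have hπT : ∀ a w, a ∈ T (J w) → π a = w := by
    intro a w haw
    have hex : ∃ w, a ∈ T (J w) := ⟨w, haw⟩
    have h1 : π a = hex.choose := by
      simp only [π]
      rw [dif_pos hex]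
    rw [h1]
    by_contra hne'
    have h2 := hex.choose_spec
    have h3 := hd2 (J hex.choose) (J w) (fun hh => hne' (J.injective hh))
    exact Finset.disjoint_left.mp h3 h2 haw
  have hπz : ∀ p, π (z p) = p.1 := by
    intro p
    have hno : ¬ ∃ w, z p ∈ T (J w) := by
      rintro ⟨w, hw⟩
      exact Finset.disjoint_left.mp (hd1 (J w)) hw (hz p).1
    have hex : ∃ q, z q = z p := ⟨p, rfl⟩
    have h1 : π (z p) = hex.choose.1 := by
      simp only [π]
      rw [dif_neg hno, dif_pos hex]
    rw [h1, hzinj hex.choose_spec]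
  have hcolH : Col n (D (K0 * 2)) 2 H := by
    apply col_transfer GH H (fun w => x (J w)) π (fun w => hπT _ _ (hxT (J w))) ?_ K0 ?_ n 2
      (D (K0 * 2)) (hcol m GH hGHC (K0 * 2))
    · rintro a b ⟨-, h2⟩
      rcases h2 with ⟨w, hw1, hw2⟩ | ⟨u, v, huv, ⟨ha1, hb⟩ | ⟨hb1, ha'⟩⟩
      · left
        rw [hπT a w hw1, hπT b w hw2]
      · subst ha1
        rw [hπz]
        rcases hb with hb | hb
        · left
          rw [hπT b u hb]
        · right
          rw [hπT b v hb]
          exact huv
      · subst hb1
        rw [hπz]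
        rcases ha' with hb | hb
        · left
          rw [hπT a u hb]
        · right
          rw [hπT a v hb]
          exact huv.symm
    · intro u v huv
      obtain ⟨t1, ht1, hat1⟩ := ha (J u) (z (u, v)) (hz (u, v)).1 ((hz (u, v)).2.trans (hJ u).symm)
      obtain ⟨t2, ht2, hat2⟩ := ha (J v) (z (u, v)) (hz (u, v)).1 ((hz (u, v)).2.trans (hJ v).symm)
      have hin : ∀ w, restr Gb (T (J w)) ≤ GH := by
        intro w a b hab
        exact ⟨hab.1, Or.inl ⟨w, hab.2⟩⟩
      have e1 : GH.edist (x (J u)) t1 ≤ ((D 2 + 2 : ℕ) : ℕ∞) :=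
        (SimpleGraph.edist_anti (hin u)).trans (hr (J u) t1 ht1)
      have e4 : GH.edist t2 (x (J v)) ≤ ((D 2 + 2 : ℕ) : ℕ∞) := by
        rw [SimpleGraph.edist_comm]
        exact (SimpleGraph.edist_anti (hin v)).trans (hr (J v) t2 ht2)
      have e2 : GH.edist t1 (z (u, v)) ≤ 1 := by
        rw [SimpleGraph.edist_le_one_iff_adj_or_eq]
        left
        exact ⟨hat1.symm, Or.inr ⟨u, v, huv, Or.inr ⟨rfl, Or.inl ht1⟩⟩⟩
      have e3 : GH.edist (z (u, v)) t2 ≤ 1 := by
        rw [SimpleGraph.edist_le_one_iff_adj_or_eq]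
        left
        exact ⟨hat2, Or.inr ⟨u, v, huv, Or.inl ⟨rfl, Or.inr ht2⟩⟩⟩
      calc GH.edist (x (J u)) (x (J v))
          ≤ GH.edist (x (J u)) t1 + GH.edist t1 (x (J v)) := SimpleGraph.edist_triangle
        _ ≤ GH.edist (x (J u)) t1 + (GH.edist t1 (z (u, v)) + GH.edist (z (u, v)) (x (J v))) := by
            gcongr
            exact SimpleGraph.edist_triangle
        _ ≤ GH.edist (x (J u)) t1 + (GH.edist t1 (z (u, v)) +
              (GH.edist (z (u, v)) t2 + GH.edist t2 (x (J v)))) := by
            gcongr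
            exact SimpleGraph.edist_triangle
        _ ≤ ((D 2 + 2 : ℕ) : ℕ∞) + (1 + (1 + ((D 2 + 2 : ℕ) : ℕ∞))) := by gcongr
        _ = (K0 : ℕ∞) := by
            simp only [K0, D0]
            push_cast
            ring
  obtain ⟨S, -, hSne, hSd, hSw⟩ := local_density H univ Finset.univ_nonempty n (D (K0 * 2)) 2
    (by omega) hcolH (by
      rw [Finset.card_univ]
      refine le_trans (le_of_eq ?_) hdens
      ring)
  obtain ⟨y, hy⟩ := hSne
  have h1 := tree_darts R H hloc S y hy (fun v hv => hSw y hy v hv)
  have h2 : 0 < S.card := Finset.card_pos.mpr ⟨y, hy⟩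
  omega

end Pool.Agent.AsdimExp
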