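import Pool.Agent.AsdimExp.Two

/-!
# Shallow minors of graphs with covers at two scales
-/

set_option autoImplicit false

namespace Pool.Agent.AsdimExp

open Finset
open scoped Classical

universe u v

theorem edist_restr' {V : Type*} (G : SimpleGraph V) (B : Set V) (G' : SimpleGraph V)
    (hB : ∀ a b, G.Adj a b → a ∈ B → b ∈ B → G'.Adj a b) (r : ℕ) (a b : V)
    (p : G.Walk a b) (hp : p.length ≤ r) (hs : ∀ y ∈ p.support, y ∈ B) :
    G'.edist a b ≤ (r : ℕ∞) := by
  have hedge : ∀ e ∈ p.edges, e ∈ G'.edgeSet := by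
    intro e he
    induction e using Sym2.ind with
    | _ u v =>
      rw [SimpleGraph.mem_edgeSet]
      exact hB u v (SimpleGraph.Walk.adj_of_mem_edges p he)
        (hs u (SimpleGraph.Walk.fst_mem_support_of_mem_edges p he))
        (hs v (SimpleGraph.Walk.snd_mem_support_of_mem_edges p he))
  have h1 := G'.edist_le (p.transfer G' hedge)
  rw [SimpleGraph.Walk.length_transfer] at h1
  exact h1.trans (by exact_mod_cast hp)

/-- `B` and `ctr` model `M` as an `r`-shallow minor of `G` -/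
def Model {V : Type*} {W : Type*} (r : ℕ) (G : SimpleGraph V) (M : SimpleGraph W)
    (B : W → Set V) (ctr : W → V) : Prop :=
  (∀ i j, i ≠ j → Disjoint (B i) (B j)) ∧
  (∀ i, ctr i ∈ B i) ∧
  (∀ i, ∀ x ∈ B i, ∃ p : G.Walk (ctr i) x, p.length ≤ r ∧ ∀ y ∈ p.support, y ∈ B i) ∧
  (∀ i j, M.Adj i j → ∃ x ∈ B i, ∃ y ∈ B j, G.Adj x y)

/-- colourings of the spanning subgraphs of `G` give colourings of its shallow minors -/
theorem shallow_transfer {V : Type*} {W : Type*} (r : ℕ) (G : SimpleGraph V) (M : SimpleGraph W)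
    (B : W → Set V) (ctr : W → V) (hM : Model r G M B ctr) (M' : SimpleGraph W) (hM' : M' ≤ M)
    (n D t : ℕ) (hcol : ∀ G' ≤ G, Col n D ((2 * r + 1) * t) G') : Col n D t M' := by
  rcases isEmpty_or_nonempty W with hW | hW
  · exact ⟨fun _ => 0, fun u => hW.elim u⟩
  obtain ⟨hdisj, hctr, hrad, hadj⟩ := hM
  let G' : SimpleGraph V :=
    { Adj := fun a b => G.Adj a b ∧ ((∃ i, a ∈ B i ∧ b ∈ B i) ∨
        (∃ i j, M'.Adj i j ∧ a ∈ B i ∧ b ∈ B j))
      symm := ⟨by
        rintro a b ⟨h1, h2⟩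
        refine ⟨h1.symm, ?_⟩
        rcases h2 with ⟨w, hw⟩ | ⟨u, v, huv, hh⟩
        · exact Or.inl ⟨w, hw.2, hw.1⟩
        · exact Or.inr ⟨v, u, huv.symm, hh.2, hh.1⟩⟩
      loopless := ⟨fun a h => G.loopless.irrefl a h.1⟩ }
  have hG' : G' ≤ G := fun _ _ h => h.1
  let π : V → W := fun a =>
    if h : ∃ i, a ∈ B i then h.choose else Classical.arbitrary _
  have hπ : ∀ a i, a ∈ B i → π a = i := by
    intro a i hai
    have hex : ∃ i, a ∈ B i := ⟨i, hai⟩
    have h1 : π a = hex.choose := by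
      simp only [π]
      rw [dif_pos hex]
    rw [h1]
    by_contra hne
    exact Set.disjoint_left.mp (hdisj _ _ hne) hex.choose_spec hai
  have hed : ∀ i, ∀ x ∈ B i, G'.edist (ctr i) x ≤ (r : ℕ∞) := by
    intro i x hx
    obtain ⟨p, hp1, hp2⟩ := hrad i x hx
    exact edist_restr' G (B i) G' (fun a b h1 h2 h3 => ⟨h1, Or.inl ⟨i, h2, h3⟩⟩) r _ _ p hp1 hp2
  apply col_transfer G' M' ctr π (fun i => hπ _ _ (hctr i)) ?_ (2 * r + 1) ?_ n t _
    (hcol G' hG')
  · rintro a b ⟨-, ⟨i, h1, h2⟩ | ⟨i, j, hij, h1, h2⟩⟩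
    · left
      rw [hπ a i h1, hπ b i h2]
    · right
      rw [hπ a i h1, hπ b j h2]
      exact hij
  · intro i j hij
    obtain ⟨x, hx, y, hy, hxy⟩ := hadj i j (hM' hij)
    have e1 := hed i x hx
    have e2 : G'.edist x y ≤ 1 := by
      rw [SimpleGraph.edist_le_one_iff_adj_or_eq]
      left
      exact ⟨hxy, Or.inr ⟨i, j, hij, hx, hy⟩⟩
    have e3 : G'.edist y (ctr j) ≤ (r : ℕ∞) := by
      rw [SimpleGraph.edist_comm]
      exact hed j y hy
    calc G'.edist (ctr i) (ctr j) ≤ G'.edist (ctr i) x + G'.edist x (ctr j) :=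
          SimpleGraph.edist_triangle
      _ ≤ G'.edist (ctr i) x + (G'.edist x y + G'.edist y (ctr j)) := by
          gcongr
          exact SimpleGraph.edist_triangle
      _ ≤ (r : ℕ∞) + (1 + (r : ℕ∞)) := by gcongr
      _ = ((2 * r + 1 : ℕ) : ℕ∞) := by push_cast; ring

theorem ncard_le_darts {W : Type*} [Fintype W] (M : SimpleGraph W) :
    2 * M.edgeSet.ncard ≤ (darts M Finset.univ).card := by
  have h1 : (darts M Finset.univ).card = ∑ v : W, M.degree v := by
    have : darts M Finset.univ = (Finset.univ : Finset W).biUnion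
        (fun a => (M.neighborFinset a).image (fun b => (a, b))) := by
      ext p
      rw [mem_darts]
      simp only [Finset.mem_univ, true_and, Finset.mem_biUnion, Finset.mem_image,
        SimpleGraph.mem_neighborFinset]
      constructor
      · intro h
        exact ⟨p.1, p.2, h, rfl⟩
      · rintro ⟨a, b, hab, rfl⟩
        exact hab
    rw [this, Finset.card_biUnion]
    · apply Finset.sum_congr rfl
      intro a _
      rw [Finset.card_image_of_injective _ (fun x y h => (Prod.mk.inj h).2)]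
      exact M.card_neighborFinset_eq_degree a
    · intro a _ b _ hab
      rw [Function.onFun, Finset.disjoint_left]
      rintro p hp1 hp2
      rw [Finset.mem_image] at hp1 hp2
      obtain ⟨x, _, rfl⟩ := hp1
      obtain ⟨y, _, hy⟩ := hp2
      exact hab (Prod.mk.inj hy).1.symm
  rw [h1, M.sum_degrees_eq_twice_card_edges]
  rw [← SimpleGraph.coe_edgeFinset, Set.ncard_coe_finset]

/-- **Two scales suffice**: shallow minors have bounded density. -/
theorem shallow_density (n r D₁ D₂ : ℕ) : ∃ K : ℕ, ∀ (V : Type u) (G : SimpleGraph V),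
    (∀ G' ≤ G, Col n D₁ ((2 * r + 1) * 2) G') →
    (∀ G' ≤ G, Col n D₂ ((2 * r + 1) * ((2 * (D₁ + 2) + 2) * 2)) G') →
    ∀ (W : Type v) [Fintype W] (M : SimpleGraph W) (B : W → Set V) (ctr : W → V),
      Model r G M B ctr → 2 * M.edgeSet.ncard ≤ K * Fintype.card W := by
  obtain ⟨K, hK⟩ := density_two.{v} n D₁ D₂
  refine ⟨K, ?_⟩
  intro V G h1 h2 W _ M B ctr hM
  exact (ncard_le_darts M).trans (hK W M
    (fun M' hM' => shallow_transfer r G M B ctr hM M' hM' n _ _ h1)
    (fun M' hM' => shallow_transfer r G M B ctr hM M' hM' n _ _ h2))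

end Pool.Agent.AsdimExp
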