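import Pool.Agent.AsdimExp.Basic

set_option autoImplicit false

namespace Pool.Agent.AsdimExp

open Finset
open scoped Classical

/-- parity of distances in a bipartite graph -/
theorem side_parity {V : Type*} (G : SimpleGraph V) (side : V → Bool)
    (hbip : ∀ u v, G.Adj u v → side u ≠ side v) (x v : V) (i : ℕ)
    (h : G.edist x v = (i : ℕ∞)) : Even i ↔ (side x = side v) := by
  obtain ⟨p, hp⟩ := SimpleGraph.exists_walk_of_edist_eq_coe h
  let c : G.Coloring Bool := SimpleGraph.Coloring.mk side (fun {u v} huv => hbip u v huv)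
  have := c.even_length_iff_congr p
  rw [hp] at this
  rw [this]
  exact Bool.coe_iff_coe

/-- predecessor on a geodesic -/
theorem exists_pred {V : Type*} (G : SimpleGraph V) (x v : V) (i : ℕ)
    (h : G.edist x v = ((i + 1 : ℕ) : ℕ∞)) :
    ∃ w, G.Adj w v ∧ G.edist x w ≤ (i : ℕ∞) := by
  obtain ⟨p, hp⟩ := SimpleGraph.exists_walk_of_edist_eq_coe h
  have hq : p.reverse.length = i + 1 := by rw [SimpleGraph.Walk.length_reverse, hp]
  generalize p.reverse = q at hq
  cases q with
  | nil => simp at hq
  | @cons _ w _ hvw q =>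
    refine ⟨w, hvw.symm, ?_⟩
    rw [SimpleGraph.Walk.length_cons] at hq
    have := G.edist_le q
    rw [SimpleGraph.edist_comm]
    refine this.trans ?_
    exact_mod_cast (by omega : q.length ≤ i)

/-- radius of a ball in the restricted graph -/
theorem ball_radius {V : Type*} (G : SimpleGraph V) (T : Finset V) (x : V) (r : ℕ)
    (hT : ∀ v, v ∈ T ↔ G.edist x v ≤ (r : ℕ∞)) :
    ∀ k : ℕ, k ≤ r → ∀ v, G.edist x v ≤ (k : ℕ∞) → (restr G T).edist x v ≤ (k : ℕ∞) := by
  intro k
  induction k with
  | zero =>
    intro _ v hv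
    have : G.edist x v = 0 := by simpa using hv
    rw [SimpleGraph.edist_eq_zero_iff] at this
    subst this
    simp
  | succ k ih =>
    intro hk v hv
    by_cases hlt : G.edist x v ≤ (k : ℕ∞)
    · refine (ih (by omega) v hlt).trans ?_
      exact_mod_cast Nat.le_succ k
    · have heq : G.edist x v = ((k + 1 : ℕ) : ℕ∞) := by
        apply le_antisymm hv
        rw [not_le] at hlt
        have := Order.add_one_le_of_lt hlt
        simpa using this
      obtain ⟨w, hw1, hw2⟩ := exists_pred G x v k heq
      have h1 := ih (by omega) w hw2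
      have hwT : w ∈ T := (hT w).mpr (hw2.trans (by exact_mod_cast (by omega : k ≤ r)))
      have hvT : v ∈ T := (hT v).mpr (hv.trans (by exact_mod_cast hk))
      have h2 : (restr G T).edist w v ≤ 1 := by
        rw [SimpleGraph.edist_le_one_iff_adj_or_eq]
        exact Or.inl ⟨hw1, hwT, hvT⟩
      calc (restr G T).edist x v ≤ (restr G T).edist x w + (restr G T).edist w v :=
            SimpleGraph.edist_triangle
        _ ≤ (k : ℕ∞) + 1 := by gcongr
        _ = ((k + 1 : ℕ) : ℕ∞) := by push_cast; rfl

/-- the step: from a dense bipartite graph, pass to a dense part, all of whose vertices on one side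
are attached to a small connected set `T`. -/
theorem step {V : Type*} [Fintype V] (G : SimpleGraph V) (side : V → Bool)
    (hbip : ∀ u v, G.Adj u v → side u ≠ side v) (A : Finset V) (hA : A.Nonempty)
    (hGA : ∀ u v, G.Adj u v → u ∈ A ∧ v ∈ A) (n D ρ : ℕ) (hρ : 2 ≤ ρ)
    (hcol : Col n D 2 G)
    (h : (n + 1) * (2 * ρ) * A.card ≤ (darts G A).card) :
    ∃ (x : V) (T A' : Finset V) (s : Bool), x ∈ T ∧ T ⊆ A ∧ A' ⊆ A ∧ Disjoint T A' ∧
      A'.Nonempty ∧ ρ * A'.card ≤ (darts G A').card ∧
      (∀ v ∈ T, (restr G T).edist x v ≤ ((D + 2 : ℕ) : ℕ∞)) ∧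
      (∀ v ∈ A', side v = s → ∃ t ∈ T, G.Adj v t) := by
  obtain ⟨S, hSA, hSne, hSd, hSw⟩ := local_density G A hA n D (2 * ρ) (by omega) hcol h
  obtain ⟨x, hx⟩ := hSne
  have hfin : ∀ v ∈ S, ∃ i : ℕ, G.edist x v = (i : ℕ∞) ∧ i ≤ D + 2 := by
    intro v hv
    have h1 := hSw x hx v hv
    obtain ⟨i, hi⟩ := ENat.ne_top_iff_exists.mp (ne_top_of_le_ne_top (ENat.natCast_ne_top _) h1)
    refine ⟨i, hi.symm, ?_⟩
    rw [← hi] at h1
    exact_mod_cast h1
  let N : Fin (D + 3) → Finset V := fun i =>
    S.filter (fun v => G.edist x v = ((i : ℕ) : ℕ∞) ∨ G.edist x v = (((i : ℕ) + 1 : ℕ) : ℕ∞))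
  have hN : ∀ i v, v ∈ N i ↔ v ∈ S ∧ (G.edist x v = ((i : ℕ) : ℕ∞) ∨
      G.edist x v = (((i : ℕ) + 1 : ℕ) : ℕ∞)) := by
    intro i v
    simp only [N, Finset.mem_filter]
  have hmult : ∀ v ∈ S, (univ.filter (fun i => v ∈ N i)).card ≤ 2 := by
    intro v hv
    obtain ⟨i, hi, _⟩ := hfin v hv
    have hsub : (univ.filter (fun j => v ∈ N j)) ⊆
        (univ.filter (fun j : Fin (D + 3) => (j : ℕ) = i)) ∪
        (univ.filter (fun j : Fin (D + 3) => (j : ℕ) + 1 = i)) := by
      intro j hj
      simp only [Finset.mem_filter, Finset.mem_univ, true_and, Finset.mem_union] at hj ⊢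
      rcases ((hN j v).mp hj).2 with h | h
      · left
        rw [hi] at h
        exact_mod_cast h.symm
      · right
        rw [hi] at h
        exact_mod_cast h.symm
    refine (Finset.card_le_card hsub).trans ((Finset.card_union_le _ _).trans ?_)
    have h1 : (univ.filter (fun j : Fin (D + 3) => (j : ℕ) = i)).card ≤ 1 := by
      rw [Finset.card_le_one]
      intro a ha b hb
      simp only [Finset.mem_filter, Finset.mem_univ, true_and] at ha hb
      exact Fin.ext (by omega)
    have h2 : (univ.filter (fun j : Fin (D + 3) => (j : ℕ) + 1 = i)).card ≤ 1 := by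
      rw [Finset.card_le_one]
      intro a ha b hb
      simp only [Finset.mem_filter, Finset.mem_univ, true_and] at ha hb
      exact Fin.ext (by omega)
    omega
  have hdiff : ∀ u ∈ S, ∀ v ∈ S, G.Adj u v → ∀ i j : ℕ, G.edist x u = (i : ℕ∞) →
      G.edist x v = (j : ℕ∞) → i = j + 1 ∨ j = i + 1 := by
    intro u _ v _ huv i j hi hj
    have a1 : G.edist u v ≤ 1 := by
      rw [SimpleGraph.edist_le_one_iff_adj_or_eq]
      exact Or.inl huv
    have a2 : G.edist v u ≤ 1 := by
      rw [SimpleGraph.edist_comm]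
      exact a1
    have h1 : G.edist x v ≤ G.edist x u + 1 :=
      (SimpleGraph.edist_triangle (v := u)).trans (by gcongr)
    have h2 : G.edist x u ≤ G.edist x v + 1 :=
      (SimpleGraph.edist_triangle (v := v)).trans (by gcongr)
    rw [hi, hj] at h1 h2
    have h1' : j ≤ i + 1 := by exact_mod_cast h1
    have h2' : i ≤ j + 1 := by exact_mod_cast h2
    have hne : i ≠ j := by
      rintro rfl
      have e1 := side_parity G side hbip x u i hi
      have e2 := side_parity G side hbip x v i hj
      have := hbip u v huv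
      by_cases he : Even i
      · exact this ((e1.mp he).symm.trans (e2.mp he))
      · have a1 : side x ≠ side u := fun hh => he (e1.mpr hh)
        have a2 : side x ≠ side v := fun hh => he (e2.mpr hh)
        revert a1 a2 this
        cases side x <;> cases side u <;> cases side v <;> simp
    omega
  have hcov : ∀ u ∈ S, ∀ v ∈ S, G.Adj u v → ∃ q, u ∈ N q ∧ v ∈ N q := by
    intro u hu v hv huv
    obtain ⟨i, hi, hi'⟩ := hfin u hu
    obtain ⟨j, hj, hj'⟩ := hfin v hv
    rcases hdiff u hu v hv huv i j hi hj with h | h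
    · refine ⟨⟨j, by omega⟩, (hN _ _).mpr ⟨hu, Or.inr ?_⟩, (hN _ _).mpr ⟨hv, Or.inl ?_⟩⟩
      · rw [hi]
        exact_mod_cast h
      · rw [hj]
    · refine ⟨⟨i, by omega⟩, (hN _ _).mpr ⟨hu, Or.inl ?_⟩, (hN _ _).mpr ⟨hv, Or.inr ?_⟩⟩
      · rw [hi]
      · rw [hj]
        exact_mod_cast h
  obtain ⟨q, hq1, hq2⟩ := pigeon G S N 2 ρ (by omega) (by omega) ⟨x, hx⟩ hmult hcov hSd
  have hNS : N q ∩ S = N q := by
    apply Finset.inter_eq_left.mpr
    intro v hv
    exact ((hN q v).mp hv).1
  rw [hNS] at hq1 hq2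
  -- the level is positive
  have hqpos : 1 ≤ (q : ℕ) := by
    by_contra hcon
    have hq0 : (q : ℕ) = 0 := by omega
    have hbound : (darts G (N q)).card ≤ 2 * ((N q).card - 1) := by
      have hsub : darts G (N q) ⊆ (((N q).erase x).image (fun v => (x, v))) ∪
          (((N q).erase x).image (fun v => (v, x))) := by
        intro p hp
        rw [mem_darts] at hp
        obtain ⟨hp1, hp2, hp3⟩ := hp
        have hp1' := (hN q _).mp hp1
        have hp2' := (hN q _).mp hp2
        rw [hq0] at hp1' hp2'
        have z : ∀ w, G.edist x w = ((0 : ℕ) : ℕ∞) → w = x := by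
          intro w hw
          have : G.edist x w = 0 := by simpa using hw
          rw [SimpleGraph.edist_eq_zero_iff] at this
          exact this.symm
        have hor : p.1 = x ∨ p.2 = x := by
          rcases hp1'.2 with h1 | h1
          · exact Or.inl (z _ h1)
          · rcases hp2'.2 with h2 | h2
            · exact Or.inr (z _ h2)
            · exfalso
              have := hdiff _ hp1'.1 _ hp2'.1 hp3 _ _ h1 h2
              omega
        rw [Finset.mem_union, Finset.mem_image, Finset.mem_image]
        rcases hor with h1 | h1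
        · left
          refine ⟨p.2, ?_, ?_⟩
          · rw [Finset.mem_erase]
            refine ⟨?_, hp2⟩
            intro h2
            exact hp3.ne (h1.trans h2.symm)
          · rw [← h1]
        · right
          refine ⟨p.1, ?_, ?_⟩
          · rw [Finset.mem_erase]
            refine ⟨?_, hp1⟩
            intro h2
            exact hp3.ne (h2.trans h1.symm)
          · rw [← h1]
      have hxN : x ∈ N q := by
        rw [hN, hq0]
        exact ⟨hx, Or.inl (by simp)⟩
      calc (darts G (N q)).card ≤ _ := Finset.card_le_card hsub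
        _ ≤ _ := Finset.card_union_le _ _
        _ ≤ ((N q).erase x).card + ((N q).erase x).card :=
            Nat.add_le_add Finset.card_image_le Finset.card_image_le
        _ = 2 * ((N q).card - 1) := by rw [Finset.card_erase_of_mem hxN]; ring
    have h1 := hq1.card_pos
    have h2 : 2 * (N q).card ≤ ρ * (N q).card := Nat.mul_le_mul_right _ hρ
    omega
  obtain ⟨i, hi⟩ : ∃ i, (q : ℕ) = i + 1 := ⟨(q : ℕ) - 1, by omega⟩
  have hiD : i ≤ D + 2 := by
    have := q.2
    omega
  let T : Finset V := univ.filter (fun v => G.edist x v ≤ (i : ℕ∞))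
  have hT : ∀ v, v ∈ T ↔ G.edist x v ≤ (i : ℕ∞) := by
    intro v
    simp [T]
  -- a vertex at level exactly q
  obtain ⟨u, hu, huq⟩ : ∃ u ∈ N q, G.edist x u = ((q : ℕ) : ℕ∞) := by
    have hpos : 0 < (darts G (N q)).card := by
      have h1 := hq1.card_pos
      have : 0 < ρ * (N q).card := by positivity
      omega
    obtain ⟨p, hp⟩ := Finset.card_pos.mp hpos
    rw [mem_darts] at hp
    obtain ⟨hp1, hp2, hp3⟩ := hp
    have hp1' := (hN q _).mp hp1
    have hp2' := (hN q _).mp hp2
    rcases hp1'.2 with h1 | h1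
    · exact ⟨_, hp1, h1⟩
    · rcases hp2'.2 with h2 | h2
      · exact ⟨_, hp2, h2⟩
      · exfalso
        have := hdiff _ hp1'.1 _ hp2'.1 hp3 _ _ h1 h2
        omega
  refine ⟨x, T, N q, side u, ?_, ?_, ?_, ?_, hq1, hq2, ?_, ?_⟩
  · rw [hT]
    simp
  · intro v hv
    rw [hT] at hv
    by_cases hxv : x = v
    · subst hxv
      exact hSA hx
    · have hr : G.Reachable x v :=
        SimpleGraph.reachable_of_edist_ne_top (ne_top_of_le_ne_top (ENat.natCast_ne_top _) hv)
      obtain ⟨p⟩ := hr.symm
      cases p with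
      | nil => exact absurd rfl hxv
      | cons hvw _ => exact (hGA _ _ hvw).1
  · intro v hv
    exact hSA ((hN q v).mp hv).1
  · rw [Finset.disjoint_left]
    intro v hv1 hv2
    rw [hT] at hv1
    rcases ((hN q v).mp hv2).2 with h1 | h1
    · rw [h1, hi] at hv1
      have : i + 1 ≤ i := by exact_mod_cast hv1
      omega
    · rw [h1, hi] at hv1
      have : i + 1 + 1 ≤ i := by exact_mod_cast hv1
      omega
  · intro v hv
    have h1 := ball_radius G T x i hT i le_rfl v ((hT v).mp hv)
    exact h1.trans (by exact_mod_cast hiD)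
  · intro v hv hvs
    have hv' := (hN q v).mp hv
    have hlev : G.edist x v = ((i + 1 : ℕ) : ℕ∞) := by
      rcases hv'.2 with h1 | h1
      · rw [h1, hi]
      · exfalso
        have e1 := side_parity G side hbip x u _ huq
        have e2 := side_parity G side hbip x v _ h1
        rw [hvs] at e2
        have := e1.trans e2.symm
        by_cases he : Even (q : ℕ)
        · have h3 := this.mp he
          rw [Nat.even_add_one] at h3
          exact h3 he
        · exact he (this.mpr (Nat.even_add_one.mpr he))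
    obtain ⟨w, hw1, hw2⟩ := exists_pred G x v i hlev
    exact ⟨w, (hT w).mpr hw2, hw1.symm⟩

end Pool.Agent.AsdimExp
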