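import Pool.Agent.AsdimExp.Main

/-!
# Two scales suffice

The density theorem with the covering hypothesis at two scales only, and the passage to
shallow minors.
-/

set_option autoImplicit false

namespace Pool.Agent.AsdimExp

open Finset
open scoped Classical

universe u v

/-- **Two-scale density theorem**: if all spanning subgraphs of `G` have good colourings at the
scales `2` and `2 * (2 * D₁ + 6)`, then `G` has bounded density. -/
theorem density_two (n D₁ D₂ : ℕ) :
    ∃ K : ℕ, ∀ (V : Type u) [Fintype V] (G : SimpleGraph V),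
      (∀ G' ≤ G, Col n D₁ 2 G') → (∀ G' ≤ G, Col n D₂ ((2 * (D₁ + 2) + 2) * 2) G') →
      (darts G univ).card ≤ K * Fintype.card V := by
  let D0 := D₁ + 2
  let K0 := 2 * D0 + 2
  let R := D₂ + 2
  obtain ⟨W, instW, instN, H, hloc, hdens⟩ := exists_locTree (2 * (n + 1)) R
  let M := Fintype.card W
  let ρ := 2 * M ^ 2 + 2
  refine ⟨2 * ((2 * (n + 1)) ^ (2 * M) * ρ), ?_⟩
  intro V instV G hcol1 hcol2
  by_contra hcon
  rw [not_le] at hcon
  obtain ⟨side, hside⟩ := exists_bip G
  let Gb : SimpleGraph V :=
    { Adj := fun u v => G.Adj u v ∧ side u ≠ side v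
      symm := ⟨fun _ _ h => ⟨h.1.symm, h.2.symm⟩⟩
      loopless := ⟨fun u h => h.2 rfl⟩ }
  have hGb : Gb ≤ G := fun _ _ h => h.1
  have hdGb : (darts G univ).filter (fun p => side p.1 ≠ side p.2) = darts Gb univ := by
    ext p
    rw [Finset.mem_filter, mem_darts, mem_darts]
    simp only [Gb, Finset.mem_univ, true_and]
  rw [hdGb] at hside
  have hdense : (2 * (n + 1)) ^ (2 * M) * ρ * (univ : Finset V).card ≤
      (darts Gb univ).card := by
    rw [Finset.card_univ]
    have h1 : 2 * ((2 * (n + 1)) ^ (2 * M) * ρ) * Fintype.card V =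
      2 * ((2 * (n + 1)) ^ (2 * M) * ρ * Fintype.card V) := by ring
    rw [h1] at hcon
    omega
  have hVne : Nonempty V := by
    by_contra hemp
    rw [not_nonempty_iff] at hemp
    have : (darts G univ).card = 0 := by
      rw [Finset.card_eq_zero, Finset.eq_empty_iff_forall_notMem]
      intro p
      exact hemp.elim p.1
    omega
  obtain ⟨x, T, s, A', -, -, hne, hd1, hd2, hxT, hr, ha, hd⟩ := iterate n D₁ ρ (by omega) side
    (2 * M) Gb univ Finset.univ_nonempty (fun u v h => h.2) (fun u v _ => ⟨mem_univ _, mem_univ _⟩)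
    (fun G' hG' => hcol1 G' (hG'.trans hGb)) hdense
  -- a popular side
  obtain ⟨s0, hs0⟩ : ∃ s0 : Bool, M ≤ (univ.filter (fun j : Fin (2 * M) => s j = s0)).card := by
    by_contra hno
    push Not at hno
    have h1 := hno true
    have h2 := hno false
    have h3 := Finset.card_filter_add_card_filter_not (s := (univ : Finset (Fin (2 * M))))
      (fun j => s j = true)
    rw [Finset.card_univ, Fintype.card_fin] at h3
    have h4 : (univ.filter (fun j : Fin (2 * M) => ¬ (s j = true))) =
        (univ.filter (fun j : Fin (2 * M) => s j = false)) := by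
      ext j
      simp
    rw [h4] at h3
    omega
  obtain ⟨J, hJ⟩ : ∃ J : W ↪ Fin (2 * M), ∀ w, s (J w) = s0 := by
    have h1 : Fintype.card W ≤ Fintype.card
        ↥(univ.filter (fun j : Fin (2 * M) => s j = s0)) := by
      rw [Fintype.card_coe]
      exact hs0
    obtain ⟨e⟩ := Function.Embedding.nonempty_of_card_le h1
    refine ⟨e.trans (Function.Embedding.subtype _), ?_⟩
    intro w
    have := (e w).2
    rw [Finset.mem_filter] at this
    exact this.2
  -- many attachment vertices
  have hZ : M ^ 2 ≤ (A'.filter (fun v => side v = s0)).card := by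
    have h1 : (darts Gb A').card ≤ 2 * ((A'.filter (fun v => side v = s0)).card * A'.card) := by
      have hsub : darts Gb A' ⊆ ((A'.filter (fun v => side v = s0)) ×ˢ A') ∪
          (A' ×ˢ (A'.filter (fun v => side v = s0))) := by
        intro p hp
        rw [mem_darts] at hp
        obtain ⟨hp1, hp2, hp3⟩ := hp
        have hne' : side p.1 ≠ side p.2 := hp3.2
        rw [Finset.mem_union, Finset.mem_product, Finset.mem_product, Finset.mem_filter,
          Finset.mem_filter]
        by_cases h : side p.1 = s0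
        · exact Or.inl ⟨⟨hp1, h⟩, hp2⟩
        · right
          refine ⟨hp1, hp2, ?_⟩
          revert h hne'
          cases side p.1 <;> cases side p.2 <;> cases s0 <;> simp
      refine (Finset.card_le_card hsub).trans ((Finset.card_union_le _ _).trans ?_)
      rw [Finset.card_product, Finset.card_product]
      apply le_of_eq
      ring
    have h2 := hd.trans h1
    have h3 := hne.card_pos
    have h4 : ρ * A'.card ≤ (2 * (A'.filter (fun v => side v = s0)).card) * A'.card := by
      refine h2.trans (le_of_eq ?_)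
      ring
    have h5 := Nat.le_of_mul_le_mul_right h4 h3
    have h6 : ρ = 2 * M ^ 2 + 2 := rfl
    omega
  obtain ⟨z, hzinj, hz⟩ : ∃ z : W × W → V, Function.Injective z ∧
      ∀ p, z p ∈ A' ∧ side (z p) = s0 := by
    have h1 : Fintype.card (W × W) ≤ Fintype.card ↥(A'.filter (fun v => side v = s0)) := by
      rw [Fintype.card_coe, Fintype.card_prod]
      refine le_trans (le_of_eq ?_) hZ
      simp only [M]
      ring
    obtain ⟨e⟩ := Function.Embedding.nonempty_of_card_le h1
    refine ⟨fun p => (e p).1, ?_, ?_⟩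
    · intro a b hab
      exact e.injective (Subtype.ext hab)
    · intro p
      have := (e p).2
      rw [Finset.mem_filter] at this
      exact this
  -- the subgraph modelling `H`
  let GH : SimpleGraph V :=
    { Adj := fun a b => Gb.Adj a b ∧ ((∃ w, a ∈ T (J w) ∧ b ∈ T (J w)) ∨
        (∃ u v, H.Adj u v ∧ ((a = z (u, v) ∧ (b ∈ T (J u) ∨ b ∈ T (J v))) ∨
          (b = z (u, v) ∧ (a ∈ T (J u) ∨ a ∈ T (J v))))))
      symm := ⟨by
        rintro a b ⟨h1, h2⟩
        refine ⟨h1.symm, ?_⟩
        rcases h2 with ⟨w, hw⟩ | ⟨u, v, huv, hh⟩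
        · exact Or.inl ⟨w, hw.2, hw.1⟩
        · exact Or.inr ⟨u, v, huv, hh.symm⟩⟩
      loopless := ⟨fun a h => Gb.loopless.irrefl a h.1⟩ }
  have hGH : GH ≤ Gb := fun _ _ h => h.1
  let π : V → W := fun a =>
    if h : ∃ w, a ∈ T (J w) then h.choose else
      if h : ∃ p, z p = a then h.choose.1 else Classical.arbitrary W
  have hπT : ∀ a w, a ∈ T (J w) → π a = w := by
    intro a w haw
    have hex : ∃ w, a ∈ T (J w) := ⟨w, haw⟩
    have h1 : π a = hex.choose := by
      simp only [π]
      rw [dif_pos hex]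
    rw [h1]
    by_contra hne'
    have h2 := hex.choose_spec
    have h3 := hd2 (J hex.choose) (J w) (fun hh => hne' (J.injective hh))
    exact Finset.disjoint_left.mp h3 h2 haw
  have hπz : ∀ p, π (z p) = p.1 := by
    intro p
    have hno : ¬ ∃ w, z p ∈ T (J w) := by
      rintro ⟨w, hw⟩
      exact Finset.disjoint_left.mp (hd1 (J w)) hw (hz p).1
    have hex : ∃ q, z q = z p := ⟨p, rfl⟩
    have h1 : π (z p) = hex.choose.1 := by
      simp only [π]
      rw [dif_neg hno, dif_pos hex]
    rw [h1, hzinj hex.choose_spec]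
  have hcolH : Col n D₂ 2 H := by
    apply col_transfer GH H (fun w => x (J w)) π (fun w => hπT _ _ (hxT (J w))) ?_ K0 ?_ n 2
      D₂ (hcol2 GH (hGH.trans hGb))
    · rintro a b ⟨-, h2⟩
      rcases h2 with ⟨w, hw1, hw2⟩ | ⟨u, v, huv, ⟨ha1, hb⟩ | ⟨hb1, ha'⟩⟩
      · left
        rw [hπT a w hw1, hπT b w hw2]
      · subst ha1
        rw [hπz]
        rcases hb with hb | hb
        · left
          rw [hπT b u hb]
        · right
          rw [hπT b v hb]
          exact huv
      · subst hb1
        rw [hπz]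
        rcases ha' with hb | hb
        · left
          rw [hπT a u hb]
        · right
          rw [hπT a v hb]
          exact huv.symm
    · intro u v huv
      obtain ⟨t1, ht1, hat1⟩ := ha (J u) (z (u, v)) (hz (u, v)).1 ((hz (u, v)).2.trans (hJ u).symm)
      obtain ⟨t2, ht2, hat2⟩ := ha (J v) (z (u, v)) (hz (u, v)).1 ((hz (u, v)).2.trans (hJ v).symm)
      have hin : ∀ w, restr Gb (T (J w)) ≤ GH := by
        intro w a b hab
        exact ⟨hab.1, Or.inl ⟨w, hab.2⟩⟩
      have e1 : GH.edist (x (J u)) t1 ≤ ((D₁ + 2 : ℕ) : ℕ∞) :=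
        (SimpleGraph.edist_anti (hin u)).trans (hr (J u) t1 ht1)
      have e4 : GH.edist t2 (x (J v)) ≤ ((D₁ + 2 : ℕ) : ℕ∞) := by
        rw [SimpleGraph.edist_comm]
        exact (SimpleGraph.edist_anti (hin v)).trans (hr (J v) t2 ht2)
      have e2 : GH.edist t1 (z (u, v)) ≤ 1 := by
        rw [SimpleGraph.edist_le_one_iff_adj_or_eq]
        left
        exact ⟨hat1.symm, Or.inr ⟨u, v, huv, Or.inr ⟨rfl, Or.inl ht1⟩⟩⟩
      have e3 : GH.edist (z (u, v)) t2 ≤ 1 := by
        rw [SimpleGraph.edist_le_one_iff_adj_or_eq]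
        left
        exact ⟨hat2, Or.inr ⟨u, v, huv, Or.inl ⟨rfl, Or.inr ht2⟩⟩⟩
      calc GH.edist (x (J u)) (x (J v))
          ≤ GH.edist (x (J u)) t1 + GH.edist t1 (x (J v)) := SimpleGraph.edist_triangle
        _ ≤ GH.edist (x (J u)) t1 + (GH.edist t1 (z (u, v)) + GH.edist (z (u, v)) (x (J v))) := by
            gcongr
            exact SimpleGraph.edist_triangle
        _ ≤ GH.edist (x (J u)) t1 + (GH.edist t1 (z (u, v)) +
              (GH.edist (z (u, v)) t2 + GH.edist t2 (x (J v)))) := by
            gcongr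
            exact SimpleGraph.edist_triangle
        _ ≤ ((D₁ + 2 : ℕ) : ℕ∞) + (1 + (1 + ((D₁ + 2 : ℕ) : ℕ∞))) := by gcongr
        _ = (K0 : ℕ∞) := by
            simp only [K0, D0]
            push_cast
            ring
  obtain ⟨S, -, hSne, hSd, hSw⟩ := local_density H univ Finset.univ_nonempty n D₂ 2
    (by omega) hcolH (by
      rw [Finset.card_univ]
      refine le_trans (le_of_eq ?_) hdens
      ring)
  obtain ⟨y, hy⟩ := hSne
  have h1 := tree_darts R H hloc S y hy (fun v hv => hSw y hy v hv)
  have h2 : 0 < S.card := Finset.card_pos.mpr ⟨y, hy⟩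
  omega

end Pool.Agent.AsdimExp
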